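import Pool.Agent.N207.GQ.Stm

/-!
# GQ/ELIM: elimination over a smaller field of constants (helper568, for project GQ of helper207)
-/

set_option autoImplicit false
set_option linter.style.haveILetI false

namespace Pool.Agent.N568.GQ

open MvPolynomial

/-! ### Coefficientwise application of additive maps -/

section cw

variable {τ A B : Type} [CommRing A] [CommRing B]

noncomputable def cwf (lam : A →+ B) (p : MvPolynomial τ A) : MvPolynomial τ B :=
  ∑ m ∈ p.support, monomial m (lam (p.coeff m))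

lemma coeff_cwf (lam : A →+ B) (p : MvPolynomial τ A) (m : τ →₀ ℕ) :
    (cwf lam p).coeff m = lam (p.coeff m) := by
  classical
  rw [cwf, coeff_sum]
  simp only [coeff_monomial]
  rw [Finset.sum_ite_eq']
  split_ifs with h
  · rfl
  · rw [notMem_support_iff.1 h, map_zero]

/-- coefficientwise application of an additive map -/
noncomputable def cw (lam : A →+ B) : MvPolynomial τ A →+ MvPolynomial τ B where
  toFun := cwf lam
  map_zero' := by
    ext m
    rw [coeff_cwf, coeff_zero, coeff_zero, map_zero]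
  map_add' p q := by
    ext m
    rw [coeff_cwf, coeff_add, coeff_add, coeff_cwf, coeff_cwf, map_add]

lemma coeff_cw (lam : A →+ B) (p : MvPolynomial τ A) (m : τ →₀ ℕ) :
    (cw lam p).coeff m = lam (p.coeff m) := coeff_cwf lam p m

lemma cw_C (lam : A →+ B) (a : A) : cw (τ := τ) lam (C a) = C (lam a) := by
  classical
  ext m
  rw [coeff_cw, coeff_C, coeff_C]
  split_ifs
  · rfl
  · rw [map_zero]

lemma cw_mul_X (lam : A →+ B) (p : MvPolynomial τ A) (l : τ) :
    cw lam (p * X l) = cw lam p * X l := by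
  classical
  ext m
  rw [coeff_cw, coeff_mul_X', coeff_mul_X']
  split_ifs
  · rw [coeff_cw]
  · rw [map_zero]

lemma ev_cw {A' B' : Type} [CommRing A'] [CommRing B'] (lam : A →+ B) (mu : A' →+ B') (v : A →+* A')
    (u : B →+* B') (d : τ → A') (c : τ → B') (h1 : ∀ a, mu (v a) = u (lam a))
    (h2 : ∀ x l, mu (x * d l) = mu x * c l) (p : MvPolynomial τ A) :
    mu (eval₂Hom v d p) = eval₂Hom u c (cw lam p) := by
  induction p using MvPolynomial.induction_on with
  | C a => rw [cw_C, eval₂Hom_C, eval₂Hom_C, h1]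
  | add p q hp hq => rw [map_add, map_add, map_add, map_add, hp, hq]
  | mul_X p l hp => rw [map_mul, eval₂Hom_X', h2, cw_mul_X, map_mul, eval₂Hom_X', hp]

end cw

/-! ### Coordinates -/

section coord

variable {Q K ι X Λ : Type} [Field Q] [Field K] [Algebra Q K] (e : Module.Basis ι Q K)

/-- the `i`-th coordinate of a polynomial -/
noncomputable def pr (i : ι) : MvPolynomial X K →+ MvPolynomial X Q :=
  cw (e.coord i).toAddMonoidHom

/-- the `i`-th coordinate of a polynomial in two sets of variables -/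
noncomputable def pr2 (i : ι) : MvPolynomial Λ (MvPolynomial X K) →+ MvPolynomial Λ (MvPolynomial X Q) :=
  cw (pr e i)

lemma coord_mul (i : ι) (x : K) (q : Q) :
    (e.coord i).toAddMonoidHom (x * algebraMap Q K q) = (e.coord i).toAddMonoidHom x * q := by
  change e.coord i (x * algebraMap Q K q) = e.coord i x * q
  rw [mul_comm, ← Algebra.smul_def, map_smul, smul_eq_mul, mul_comm]

lemma eval_pr (i : ι) (s : X → Q) (p : MvPolynomial X K) :
    (e.coord i).toAddMonoidHom (eval (fun j => algebraMap Q K (s j)) p) = eval s (pr e i p) :=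
  ev_cw (e.coord i).toAddMonoidHom (e.coord i).toAddMonoidHom (RingHom.id K) (RingHom.id Q) _ _
    (fun _ => rfl) (fun x l => coord_mul e i x (s l)) p

lemma eval_pr2 (i : ι) (s : X → Q) (c : Λ → Q) (G : MvPolynomial Λ (MvPolynomial X K)) :
    (e.coord i).toAddMonoidHom (eval₂Hom (eval fun j => algebraMap Q K (s j))
      (fun l => algebraMap Q K (c l)) G) = eval₂Hom (eval s) c (pr2 e i G) :=
  ev_cw (pr e i) (e.coord i).toAddMonoidHom _ _ _ _ (eval_pr e i s)
    (fun x l => coord_mul e i x (c l)) G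

lemma sum_pr2 (G : MvPolynomial Λ (MvPolynomial X K)) :
    ∃ I : Finset ι, G = ∑ i ∈ I, C (C (e i)) * map (map (algebraMap Q K)) (pr2 e i G) := by
  classical
  refine ⟨G.support.biUnion fun β => (G.coeff β).support.biUnion fun γ =>
    (e.repr ((G.coeff β).coeff γ)).support, ?_⟩
  ext β γ
  rw [coeff_sum, coeff_sum]
  simp only [coeff_C_mul, coeff_map]
  have h1 : ∀ i, (coeff γ (coeff β (pr2 e i G))) = e.repr ((G.coeff β).coeff γ) i := by
    intro i
    rw [pr2, coeff_cw, pr, coeff_cw]
    rfl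
  simp only [h1]
  conv_lhs => rw [← e.linearCombination_repr ((G.coeff β).coeff γ)]
  rw [Finsupp.linearCombination_apply, Finsupp.sum_of_support_subset (s := G.support.biUnion fun β =>
    (G.coeff β).support.biUnion fun γ => (e.repr ((G.coeff β).coeff γ)).support)]
  · refine Finset.sum_congr rfl fun i _ => ?_
    rw [Algebra.smul_def, mul_comm]
  · intro i hi
    have h2 : (G.coeff β).coeff γ ≠ 0 := by
      intro h0
      rw [h0, map_zero] at hi
      simp at hi
    have h3 : G.coeff β ≠ 0 := by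
      intro h0
      rw [h0, coeff_zero] at h2
      exact h2 rfl
    rw [Finset.mem_biUnion]
    refine ⟨β, mem_support_iff.2 h3, ?_⟩
    rw [Finset.mem_biUnion]
    exact ⟨γ, mem_support_iff.2 h2, hi⟩
  · intro i _
    rw [zero_smul]

/-- if all the coordinates vanish, the polynomial vanishes -/
lemma eq_zero_of_pr2 {Ω : Type} [CommRing Ω] (ψ : MvPolynomial Λ (MvPolynomial X K) →+* Ω)
    (G : MvPolynomial Λ (MvPolynomial X K))
    (h : ∀ i, ψ (map (map (algebraMap Q K)) (pr2 e i G)) = 0) : ψ G = 0 := by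
  obtain ⟨I, hI⟩ := sum_pr2 e G
  rw [hI, map_sum]
  refine Finset.sum_eq_zero fun i _ => ?_
  rw [map_mul, h i, mul_zero]

end coord

/-! ### The elimination -/

attribute [local instance] MvPolynomial.algebraMvPolynomial

/-- an ideal of `A[Λ]` which has no zero in an algebraically closed field over `Frac A` with algebraic
coordinates contains a nonzero constant -/
lemma exists_const {A Ω Λ : Type} [CommRing A] [IsDomain A] [Field Ω] [IsAlgClosed Ω] [Finite Λ]
    (ψ : A →+* Ω) (hψ : Function.Injective ψ) (I : Ideal (MvPolynomial Λ A))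
    (h : ∀ c : Λ → Ω, (∀ l, ∃ p : Polynomial A, p ≠ 0 ∧ p.eval₂ ψ (c l) = 0) →
      ∃ G ∈ I, eval₂Hom ψ c G ≠ 0) : ∃ a : A, a ≠ 0 ∧ C a ∈ I := by
  by_contra hcon
  push Not at hcon
  let k := FractionRing A
  have hne : I.map (algebraMap (MvPolynomial Λ A) (MvPolynomial Λ k)) ≠ ⊤ := by
    rw [IsLocalization.map_algebraMap_ne_top_iff_disjoint
      ((nonZeroDivisors A).map (C (σ := Λ))) (MvPolynomial Λ k) I]
    rw [Set.disjoint_left]
    rintro x ⟨a, ha, rfl⟩ hx
    exact hcon a (nonZeroDivisors.ne_zero ha) hx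
  obtain ⟨m, hm, hIm⟩ := Ideal.exists_le_maximal _ hne
  letI : Algebra k Ω := (IsFractionRing.lift hψ : k →+* Ω).toAlgebra
  letI : Field (MvPolynomial Λ k ⧸ m) := Ideal.Quotient.field m
  haveI : Module.Finite k (MvPolynomial Λ k ⧸ m) := finite_of_finite_type_of_isJacobsonRing k _
  haveI : Algebra.IsAlgebraic k (MvPolynomial Λ k ⧸ m) := Algebra.IsAlgebraic.of_finite k _
  let θ : (MvPolynomial Λ k ⧸ m) →ₐ[k] Ω := IsAlgClosed.lift
  have hθ : ∀ a : A, θ (algebraMap k _ (algebraMap A k a)) = ψ a := by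
    intro a
    rw [θ.commutes]
    exact IsFractionRing.lift_algebraMap hψ a
  obtain ⟨G, hG, hG0⟩ := h (fun l => θ (Ideal.Quotient.mk m (X l))) (by
    intro l
    have h1 : IsAlgebraic k (Ideal.Quotient.mk m (X l)) := Algebra.IsAlgebraic.isAlgebraic _
    rw [← IsFractionRing.isAlgebraic_iff A k] at h1
    obtain ⟨p, hp, hp0⟩ := h1
    refine ⟨p, hp, ?_⟩
    have h2 : ψ = (θ : (MvPolynomial Λ k ⧸ m) →+* Ω).comp (algebraMap A (MvPolynomial Λ k ⧸ m)) := by
      ext a
      rw [RingHom.comp_apply, IsScalarTower.algebraMap_apply A k (MvPolynomial Λ k ⧸ m)]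
      exact (hθ a).symm
    rw [h2]
    have h3 := congrArg (θ : (MvPolynomial Λ k ⧸ m) →+* Ω) hp0
    rw [Polynomial.aeval_def, Polynomial.hom_eval₂, map_zero] at h3
    exact h3)
  apply hG0
  have h4 : eval₂Hom ψ (fun l => θ (Ideal.Quotient.mk m (X l))) G =
      θ (Ideal.Quotient.mk m (algebraMap (MvPolynomial Λ A) (MvPolynomial Λ k) G)) := by
    have h5 : eval₂Hom ψ (fun l => θ (Ideal.Quotient.mk m (X l))) =
        ((θ : (MvPolynomial Λ k ⧸ m) →+* Ω).comp (Ideal.Quotient.mk m)).comp
          (algebraMap (MvPolynomial Λ A) (MvPolynomial Λ k)) := by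
      apply MvPolynomial.ringHom_ext
      · intro a
        rw [eval₂Hom_C, ← hθ a]
        simp only [RingHom.comp_apply, MvPolynomial.algebraMap_def, map_C]
        rfl
      · intro l
        rw [eval₂Hom_X']
        simp only [RingHom.comp_apply, MvPolynomial.algebraMap_def, map_X]
        rfl
    rw [h5]
    rfl
  rw [h4]
  have h6 : algebraMap (MvPolynomial Λ A) (MvPolynomial Λ k) G ∈ m :=
    hIm (Ideal.mem_map_of_mem _ hG)
  rw [Ideal.Quotient.eq_zero_iff_mem.2 h6, map_zero]

theorem elim : Pool.Agent.N207.GQ.StmElim := by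
  intro Q K Ω _ _ _ _ _ X' Λ J _ _ Δ ψ η α hinj hΔ
  classical
  let e := Module.Basis.ofVectorSpace Q K
  let I : Ideal (MvPolynomial Λ (MvPolynomial X' Q)) :=
    Ideal.span (Set.range (fun βi : (J →₀ ℕ) × _ => pr2 e βi.2 (Δ.coeff βi.1)) ∪ {X α - 1})
  obtain ⟨a, ha, haI⟩ := exists_const (ψ.comp (map (algebraMap Q K))) hinj I (by
    intro c hc
    by_contra hcon
    push Not at hcon
    have hcα : c α = 1 := by
      have := hcon (X α - 1) (Ideal.subset_span (Or.inr rfl))
      rw [map_sub, eval₂Hom_X', map_one, sub_eq_zero] at this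
      exact this
    apply hΔ c hcα hc
    rw [eval₂_eq]
    refine Finset.sum_eq_zero fun β _ => ?_
    have h1 : eval₂Hom ψ c (Δ.coeff β) = 0 := by
      apply eq_zero_of_pr2 e
      intro i
      rw [eval₂Hom_map_hom]
      exact hcon _ (Ideal.subset_span (Or.inl ⟨(β, i), rfl⟩))
    rw [h1, zero_mul])
  refine ⟨a, ha, fun s c has hcα hmap => has ?_⟩
  have hle : I ≤ RingHom.ker (eval₂Hom (eval s) c) := by
    rw [Ideal.span_le]
    rintro G (⟨⟨β, i⟩, rfl⟩ | hG)
    · rw [SetLike.mem_coe, RingHom.mem_ker, ← eval_pr2]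
      have h1 := congrArg (coeff β) hmap
      rw [coeff_map, coeff_zero] at h1
      rw [h1, map_zero]
    · rw [Set.mem_singleton_iff] at hG
      rw [hG, SetLike.mem_coe, RingHom.mem_ker, map_sub, eval₂Hom_X', map_one, hcα, sub_self]
  have h2 := hle haI
  rw [RingHom.mem_ker, eval₂Hom_C] at h2
  exact h2

end Pool.Agent.N568.GQ
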